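import Pool.Agent.E8helper81.GZ.Stm
import Pool.Agent.E8helper63.SZ.Pos

/-!
# Project GZ (MP_92f640_nt), piece GZ-E: partial summation
-/

set_option autoImplicit false

namespace Pool.Agent.E8helper40.GZ

open Finset Pool.Agent.E8helper22.SZ Pool.Agent.E8helper81.GZ

/-- GZ-E: partial summation. -/
theorem t_E (h : S_A) : S_E := by
  intro q _ χ hq hχ y₀ M hy hM
  have hq0 : 0 < q := by omega
  have hpos : ∀ m : ℕ, 0 < m → 0 ≤ tau χ m := fun m hm =>
    (Pool.Agent.E8helper63.SZ.t_POS q χ hq0 hχ m hm).1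
  set L : ℝ := ‖χ.LFunction 1‖ with hL
  have hL0 : 0 ≤ L := norm_nonneg _
  set c : ℝ := L + 20 * q / √(y₀ : ℝ) with hc
  have hc0 : 0 ≤ c := by positivity
  set T : ℕ → ℝ := fun m => ∑ i ∈ Icc 1 m, tau χ i with hT
  have hT0 : ∀ m, 0 ≤ T m := fun m =>
    Finset.sum_nonneg fun i hi => hpos i (Finset.mem_Icc.1 hi).1
  have hTs : ∀ m, T (m + 1) = T m + tau χ (m + 1) := by
    intro m
    simp only [hT]
    rw [Finset.sum_Icc_succ_top (by omega)]
  have hTb : ∀ m : ℕ, y₀ ≤ m → T m ≤ m * c := by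
    intro m hm
    have h1 : 1 ≤ m := le_trans hy hm
    have h2 := h q χ hq hχ m h1
    have h3 : T m ≤ m * L + 20 * q * √(m : ℝ) := by
      have h4 : ‖((T m : ℝ) : ℂ)‖ ≤ ‖((T m : ℝ) : ℂ) - m * χ.LFunction 1‖ +
          ‖(m : ℂ) * χ.LFunction 1‖ := by
        have := norm_add_le (((T m : ℝ) : ℂ) - m * χ.LFunction 1) ((m : ℂ) * χ.LFunction 1)
        rwa [sub_add_cancel] at this
      have h5 : ‖((T m : ℝ) : ℂ)‖ = T m := by
        rw [Complex.norm_real, Real.norm_of_nonneg (hT0 m)]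
      have h6 : ‖(m : ℂ) * χ.LFunction 1‖ = m * L := by
        rw [norm_mul, Complex.norm_natCast]
      rw [h5, h6] at h4
      have h7 : ‖((T m : ℝ) : ℂ) - m * χ.LFunction 1‖ ≤ 20 * q * √(m : ℝ) := h2
      linarith
    have hsy : 0 < √(y₀ : ℝ) := Real.sqrt_pos.2 (by exact_mod_cast hy)
    have hsm : √(y₀ : ℝ) ≤ √(m : ℝ) := Real.sqrt_le_sqrt (by exact_mod_cast hm)
    have h8 : √(m : ℝ) * √(y₀ : ℝ) ≤ m := by
      have : √(m : ℝ) * √(m : ℝ) = m := Real.mul_self_sqrt (Nat.cast_nonneg m)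
      nlinarith [Real.sqrt_nonneg (m : ℝ)]
    have h9 : √(m : ℝ) ≤ m / √(y₀ : ℝ) := by
      rw [le_div_iff₀ hsy]; exact h8
    have h10 : 20 * (q : ℝ) * √(m : ℝ) ≤ 20 * q * (m / √(y₀ : ℝ)) :=
      mul_le_mul_of_nonneg_left h9 (by positivity)
    calc T m ≤ m * L + 20 * q * √(m : ℝ) := h3
      _ ≤ m * L + 20 * q * (m / √(y₀ : ℝ)) := by linarith
      _ = m * c := by rw [hc]; ring
  have key : ∀ k : ℕ, ∑ m ∈ Ioc y₀ (y₀ + k), tau χ m / m ≤
      T (y₀ + k) / ((y₀ + k : ℕ) + 1) - T y₀ / (y₀ + 1) +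
        c * (Real.log ((y₀ + k : ℕ) : ℝ) - Real.log y₀) := by
    intro k
    induction k with
    | zero => simp
    | succ k ih =>
      have e1 : ∑ m ∈ Ioc y₀ (y₀ + (k + 1)), tau χ m / m =
          ∑ m ∈ Ioc y₀ (y₀ + k), tau χ m / m + tau χ (y₀ + k + 1) / ((y₀ + k + 1 : ℕ) : ℝ) := by
        rw [← add_assoc, Finset.sum_Ioc_succ_top (by omega)]
      rw [e1, ← add_assoc]
      set n := y₀ + k with hn
      have hn1 : (1 : ℝ) ≤ n := by
        have : 1 ≤ n := by omega
        exact_mod_cast this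
      have h1 := hTs n
      have h2 := hTb (n + 1) (by omega)
      have h3 : 1 / ((n : ℝ) + 2) ≤ Real.log ((n + 1 : ℕ) : ℝ) - Real.log n := by
        rw [← Real.log_div (by positivity) (by positivity)]
        have h4 := Real.one_sub_inv_le_log_of_pos (x := ((n + 1 : ℕ) : ℝ) / n) (by positivity)
        refine le_trans ?_ h4
        rw [inv_div]
        push_cast
        have e2 : 1 - (n : ℝ) / (n + 1) = 1 / (n + 1) := by
          field_simp
          ring
        rw [e2]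
        apply one_div_le_one_div_of_le (by positivity)
        linarith
      have h5 := mul_le_mul_of_nonneg_left h3 hc0
      have h6 : T (n + 1) / (((n : ℝ) + 1) * (n + 2)) ≤ c * (1 / ((n : ℝ) + 2)) := by
        rw [div_le_iff₀ (by positivity)]
        have : c * (1 / ((n : ℝ) + 2)) * (((n : ℝ) + 1) * (n + 2)) = (n + 1) * c := by
          field_simp
        rw [this]
        have h2' : T (n + 1) ≤ ((n + 1 : ℕ) : ℝ) * c := h2
        push_cast at h2'
        exact h2'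
      have h7 : tau χ (n + 1) / ((n + 1 : ℕ) : ℝ) =
          T (n + 1) / (((n + 1 : ℕ) : ℝ) + 1) - T n / ((n : ℝ) + 1) +
            T (n + 1) / (((n : ℝ) + 1) * (n + 2)) := by
        have h8 : tau χ (n + 1) = T (n + 1) - T n := by linarith
        rw [h8]
        push_cast
        field_simp
        ring
      rw [h7]
      have h9 : c * (Real.log ((n + 1 : ℕ) : ℝ) - Real.log y₀) =
          c * (Real.log ((n + 1 : ℕ) : ℝ) - Real.log n) + c * (Real.log n - Real.log y₀) := by ring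
      rw [h9]
      linarith
  obtain ⟨k, rfl⟩ := Nat.exists_eq_add_of_le hM
  refine le_trans (key k) ?_
  set n := y₀ + k with hn
  have hn1 : (1 : ℝ) ≤ n := by
    have : 1 ≤ n := by omega
    exact_mod_cast this
  have h1 : T n / ((n : ℝ) + 1) ≤ c := by
    rw [div_le_iff₀ (by positivity)]
    have := hTb n (by omega)
    nlinarith
  have h2 : 0 ≤ T y₀ / ((y₀ : ℝ) + 1) := div_nonneg (hT0 _) (by positivity)
  have h3 : 0 ≤ Real.log (y₀ : ℝ) := Real.log_nonneg (by exact_mod_cast hy)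
  have h4 : 0 ≤ Real.log (n : ℝ) := Real.log_nonneg hn1
  nlinarith [mul_nonneg hc0 h3]

end Pool.Agent.E8helper40.GZ
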